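import Mathlib
import Pool.Prelude.Def_F_c31e40fa
import Pool.Agent.K6.H77.LD.Fin

/-!
# Harmonic measure and Green's function at Collet-Eckmann parameters with slow recurrence

Let `M_d` be the connectedness locus of `z ^ d + c` (for `d = 2` the Mandelbrot set) and `c₀ ∈ M_d` a
parameter such that the derivatives `(f ^ n)'(c₀)` at the critical value grow exponentially and the orbit
of the critical value comes close to the critical point `0` only at a subexponential rate (not at all,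
for example).  No Lyapunov exponent need exist: let `a ≤ b` be the lower and the upper Lyapunov exponent
of the critical value.  Then the upper and the lower local dimension at `c₀` of the harmonic measure of
`ℂ \ M_d` are `log d / a` and `log d / b`, and the same holds for Green's function.  So the local dimension
exists if and only if the Lyapunov exponent does.  If `M_d` is locally connected, the loop around `M_d`
moves accordingly fast over `c₀`.
-/

set_option autoImplicit false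

open Filter Topology Set Metric MeasureTheory Complex N62a1eb23

namespace Pool.Agent.Results.MP_c6f924_an.LowerUpperDimension

open Pool.Agent.H713R2 (IsExteriorMap)

/-- The parameter `c` is in the connectedness locus, the derivatives of the iterates of
`f z = z ^ d + c` at the critical value `c` grow exponentially (the condition of Collet and Eckmann) and
the orbit of the critical value comes close to the critical point `0` only at a subexponential rate. -/
structure IsSlowCE (d : ℕ) (c : ℂ) : Prop where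
  mem : c ∈ multibrotSet d
  ce : ∃ C lam : ℝ, 1 < lam ∧ ∀ n : ℕ, lam ^ n ≤ C * ‖deriv ((fun z : ℂ => z ^ d + c)^[n]) c‖
  slow : ∀ ε : ℝ, 0 < ε → ∃ C : ℝ, ∀ n : ℕ, 1 ≤ C * Real.exp (ε * n) * ‖(fun z : ℂ => z ^ d + c)^[n] c‖

/-- The exponential growth rate of the derivative at the critical value up to the time `n`.  Its lower
and upper limits are the lower and the upper Lyapunov exponent. -/
noncomputable def growth (d : ℕ) (c : ℂ) (n : ℕ) : ℝ :=
  Real.log ‖deriv ((fun z : ℂ => z ^ d + c)^[n]) c‖ / n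

/-- The angles `t ∈ (0, 2π]` of the external rays landing at distance less than `r` from `c₀`. -/
def angles (ψ : ℂ → ℂ) (c₀ : ℂ) (r : ℝ) : Set ℝ :=
  {t | t ∈ Ioc 0 (2 * Real.pi) ∧ ∃ ζ ∈ ball c₀ r,
    Tendsto (fun ρ : ℝ => ψ (ρ * exp (t * I))) (𝓝[>] 1) (𝓝 ζ)}

/-- The harmonic measure (from infinity) of the disc of radius `r`, up to the factor `2π`. -/
noncomputable def harm (ψ : ℂ → ℂ) (c₀ : ℂ) (r : ℝ) : ℝ := (volume (angles ψ c₀ r)).toReal

/-- The maximum over a disc of Green's function of the complement of `M_d`: Green's function is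
`log ‖w‖` at the point `ψ w`. -/
noncomputable def green (ψ : ℂ → ℂ) (c₀ : ℂ) (r : ℝ) : ℝ :=
  sSup {x | ∃ w : ℂ, 1 < ‖w‖ ∧ ‖ψ w - c₀‖ ≤ r ∧ Real.log ‖w‖ = x}

/-- The exponent of a function of the radius at the scale `r`. -/
noncomputable def expo (F : ℝ → ℝ) (r : ℝ) : ℝ := Real.log (F r) / Real.log r

/-- **The lower and the upper local dimension of the harmonic measure at the Collet-Eckmann parameters
with slow recurrence.** -/
theorem result (d : ℕ) (hd : 2 ≤ d) :
    (∃ ψ : ℂ → ℂ, IsExteriorMap (multibrotSet d) ψ) ∧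
    ∀ ψ : ℂ → ℂ, IsExteriorMap (multibrotSet d) ψ → ∀ c₀ : ℂ, IsSlowCE d c₀ →
      ∃ a b : ℝ, 0 < a ∧ a ≤ b ∧
        liminf (fun n : ℕ => (growth d c₀ n : EReal)) atTop = (a : ℝ) ∧
        limsup (fun n : ℕ => (growth d c₀ n : EReal)) atTop = (b : ℝ) ∧
        liminf (fun r : ℝ => (expo (green ψ c₀) r : EReal)) (𝓝[>] 0) = (Real.log d / b : ℝ) ∧
        limsup (fun r : ℝ => (expo (green ψ c₀) r : EReal)) (𝓝[>] 0) = (Real.log d / a : ℝ) ∧
        liminf (fun r : ℝ => (expo (harm ψ c₀) r : EReal)) (𝓝[>] 0) = (Real.log d / b : ℝ) ∧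
        limsup (fun r : ℝ => (expo (harm ψ c₀) r : EReal)) (𝓝[>] 0) = (Real.log d / a : ℝ) ∧
        ((∃ κ : ℝ, Tendsto (expo (harm ψ c₀)) (𝓝[>] 0) (𝓝 κ)) ↔
          ∃ χ : ℝ, Tendsto (growth d c₀) atTop (𝓝 χ)) ∧
        ∀ F : ℂ → ℂ, ContinuousOn F {w | 1 ≤ ‖w‖} → (∀ w, 1 < ‖w‖ → F w = ψ w) →
          ∀ ζ : ℂ, ‖ζ‖ = 1 → F ζ = c₀ → ∀ ε : ℝ, 0 < ε →
            (∀ᶠ δ : ℝ in 𝓝[>] 0, ∃ ξ : ℂ, ‖ξ‖ = 1 ∧ ‖ξ - ζ‖ ≤ δ ∧
              δ ^ (b / Real.log d + ε) ≤ ‖F ξ - F ζ‖) ∧
            ∃ᶠ δ : ℝ in 𝓝[>] 0, ∃ ξ : ℂ, ‖ξ‖ = 1 ∧ ‖ξ - ζ‖ ≤ δ ∧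
              δ ^ (a / Real.log d + ε) ≤ ‖F ξ - F ζ‖ := by
  have hlog : 0 < Real.log d := Real.log_pos (by exact_mod_cast (by omega : 1 < d))
  obtain ⟨β, hβ⟩ := Pool.Agent.H713R2.exists_beta (d := d) hd
  refine ⟨⟨_, Pool.Agent.H713R2.exteriorMap_of_beta hβ⟩, fun ψ hψ c₀ h => ?_⟩
  obtain ⟨C, lam, hlam, hce⟩ := h.ce
  have hpow : ∀ n : ℕ, (0 : ℝ) < lam ^ n := fun n => pow_pos (by linarith) n
  have hc : Pool.Agent.Y298.SH.CD.CEp d (max C 1) lam c₀ :=
    Pool.Agent.Y298.SH.CD.cep_of_mem hd (le_max_right _ _) hlam h.mem fun n =>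
      (hce n).trans (mul_le_mul_of_nonneg_right (le_max_left _ _) (norm_nonneg _))
  have hs : Pool.Agent.K6.H77.LD.Slow d c₀ := by
    intro ε hε
    obtain ⟨C', hC'⟩ := h.slow ε hε
    refine ⟨max C' 1, le_max_right _ _, fun n => (hC' n).trans ?_⟩
    exact mul_le_mul_of_nonneg_right (mul_le_mul_of_nonneg_right (le_max_left _ _)
      (Real.exp_pos _).le) (norm_nonneg _)
  obtain ⟨a, b, hg, -, -⟩ := Pool.Agent.K6.H77.LD.exists_grows hd hc
  obtain ⟨h1, h2⟩ := Pool.Agent.K6.H77.LD.lyap_exps hc hs hg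
  have ha := hg.pos
  have hb := hg.posb
  have hA₁ : 0 < Real.log d / b := by positivity
  have hA : Real.log d / b ≤ Real.log d / a := div_le_div_of_nonneg_left hlog.le ha hg.le
  have hG := Pool.Agent.K6.H77.LD.sup_bounds hd h.mem hc hs hg hψ
  have hH := Pool.Agent.K6.H77.LD.vol_bounds hd h.mem hc hs hg hψ
  obtain ⟨h3, h4⟩ := hG.exponents hA₁ hA
  obtain ⟨h5, h6⟩ := hH.exponents hA₁ hA
  refine ⟨a, b, ha, hg.le, h1, h2, h3, h4, h5, h6, ?_, fun F hF hE ζ hζ hFζ ε hε => ?_⟩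
  · rw [show (∃ κ : ℝ, Tendsto (expo (harm ψ c₀)) (𝓝[>] 0) (𝓝 κ)) ↔ Real.log d / b = Real.log d / a
      from Pool.Agent.K6.H77.LD.tendsto_iff_ereal h5 h6,
      show (∃ χ : ℝ, Tendsto (growth d c₀) atTop (𝓝 χ)) ↔ a = b
      from Pool.Agent.K6.H77.LD.tendsto_iff_ereal h1 h2]
    constructor
    · intro h7
      rw [div_eq_div_iff hb.ne' ha.ne'] at h7
      exact mul_left_cancel₀ hlog.ne' h7
    · intro h7
      rw [h7]
  · have h7 := Pool.Agent.K6.H77.LD.loop_bounds hA₁ hA hH hF hE hζ hFζ hε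
    rw [one_div_div, one_div_div] at h7
    exact h7

end Pool.Agent.Results.MP_c6f924_an.LowerUpperDimension
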