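import Mathlib
import Pool.Prelude.Def_F_c31e40fa
import Pool.Agent.H712R2.MultibrotConnected
import Pool.Agent.K6.H26.ML.Dec
import Pool.Agent.K6.H26.ML.Ql

/-!
# Local connectivity is decided where the critical orbit has quasi-Lipschitz velocities

New in this file and in `K6/H26/ML/Kern2`, `UP`, `NP`, `C2`, `Fix`, `Dm`, `Ql`: the transversality
inequality for the DIFFERENCE of the velocities of two points of the critical orbit (the
push-forward argument for the difference of two quadratic differentials, whose error term has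
norm `O(|x_n - x_k| (1 + |log |x_n - x_k||))`), the Newton step for `P_n - P_k` on a zero-free
disc, the bound `C 2 ^ l` for the number of the trapped points of period `l` of a renormalization,
and the dimension `≤ log 2 / (q X)` of the set of the renormalizable parameters of period `q` which
are infinitely often `exp (- X n)`-close to parameters with a relation `P_n = P_k`, `q ∣ n - k`.
-/

set_option autoImplicit false

open Filter Topology Set Metric MeasureTheory Complex N62a1eb23

namespace Pool.Agent.Results.MP_c6f924_an.QuasiLipschitzVelocities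

/-- The map `z ↦ z ^ 2 + c`. -/
def f (c : ℂ) : ℂ → ℂ := fun z => z ^ 2 + c

/-- The point `x_n = f_c^n (0)` of the critical orbit. -/
def P (n : ℕ) (c : ℂ) : ℂ := (f c)^[n] 0

/-- The perturbation `(id + t Φ) ∘ f_c` of `f_c`. For `Φ = 1` it is `f_(c + t)`. -/
def g (c : ℂ) (Φ : ℂ → ℂ) (t : ℂ) : ℂ → ℂ := fun z => f c z + t * Φ (f c z)

/-- The velocity of the `n`-th point of the critical orbit under this perturbation. -/
noncomputable def velocity (c : ℂ) (Φ : ℂ → ℂ) (n : ℕ) : ℂ := deriv (fun t : ℂ => (g c Φ t)^[n] 0) 0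

/-- `h` is proper of degree at most `2` from the bounded open set `U` onto a set which contains the
closure of `U`. Polynomial-like maps of degree `2` have this property. -/
def PolynomialLike (h : ℂ → ℂ) (U : Set ℂ) : Prop :=
  IsOpen U ∧ Bornology.IsBounded U ∧ closure U ⊆ h '' U ∧
    (∀ K ⊆ h '' U, IsCompact K → IsCompact {z | z ∈ U ∧ h z ∈ K}) ∧
    ∀ w ∈ h '' U, {z | z ∈ U ∧ h z = w}.encard ≤ 2

/-- `z ↦ z ^ 2 + c` is renormalizable of period `q`. -/
def Renormalizable (c : ℂ) (q : ℕ) : Prop :=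
  ∃ U : Set ℂ, PolynomialLike ((f c)^[q]) U ∧ (0 : ℂ) ∈ U ∧
    (∀ n : ℕ, 1 ≤ n → (f c)^[n * q] 0 ∈ U) ∧ ∀ z ∈ U, deriv ((f c)^[q]) z = 0 → z = 0

/-- Quasi-Lipschitz velocities. For `q = 1` and for every period `q` of renormalization, for every
`X > log 2 / q`, for all large `n` and ALL `k < n` such that `k = 0` or `q` divides `n - k`
(so that `x_n` and `x_k` belong to the same little Julia set):
(1) every parameter `a` with `f_a^n (0) = f_a^k (0)` is at distance more than `exp (- X n)`;
(2) under every holomorphic perturbation the velocities of `x_n` and `x_k` differ by at most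
`exp (X n)` times the size of the perturbation times `|x_n - x_k| (1 + |log |x_n - x_k||)`, up to a
constant. -/
def QuasiLipschitz (K : ℝ) (c : ℂ) : Prop :=
  ∀ q : ℕ, 1 ≤ q → (q = 1 ∨ Renormalizable c q) → ∀ X : ℝ, Real.log 2 / q < X →
    ∀ᶠ n : ℕ in atTop, ∀ k < n, (k = 0 ∨ q ∣ n - k) →
      (∀ a : ℂ, P n a = P k a → Real.exp (-(X * n)) < dist a c) ∧
      ∀ (Φ : ℂ → ℂ) (M : ℝ), DifferentiableOn ℂ Φ (ball 0 4) →
        (∀ x ∈ ball (0 : ℂ) 4, ‖Φ x‖ ≤ M) →
        (∀ j : ℕ, DifferentiableAt ℂ (fun t : ℂ => (g c Φ t)^[j] 0) 0) ∧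
        ‖velocity c Φ n - velocity c Φ k‖ ≤
          K * M * Real.exp (X * n) * (‖P n c - P k c‖ * (1 + |Real.log ‖P n c - P k c‖|))

/-- `K` is locally connected at `c` in the weak sense (connected im kleinen): the points of `K`
close to `c` are joined to `c` by small connected subsets of `K`. -/
def LocallyConnectedAt (K : Set ℂ) (c : ℂ) : Prop :=
  ∀ ε : ℝ, 0 < ε → ∃ δ : ℝ, 0 < δ ∧ ∀ q ∈ K, dist q c < δ →
    ∃ C ⊆ K ∩ ball c ε, IsPreconnected C ∧ c ∈ C ∧ q ∈ C

open Pool.Agent.K6.H26.ML

theorem ql {c : ℂ} (hc : c ∈ multibrotSet 2) (h : QL c) : QuasiLipschitz KQ c := by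
  intro q hq hr X hX
  have h1 := h q hq hr X hX
  filter_upwards [h1] with n hn k hkn hk
  obtain ⟨h2, h3⟩ := hn k hkn hk
  refine ⟨fun a ha => ?_, fun Φ M hΦ hM => ?_⟩
  · rw [dist_eq_norm]
    exact h2 a ha
  · have h4 : ∀ j, HasDerivAt (fun t : ℂ => (g c Φ t)^[j] 0) (Pool.Agent.R240.Univ.vel 2 c Φ j) 0 :=
      fun j => Pool.Agent.R240.Univ.vel_deriv (le_refl 2) hc hΦ j
    refine ⟨fun j => (h4 j).differentiableAt, ?_⟩
    have h5 : ∀ j, velocity c Φ j = Pool.Agent.R240.Univ.vel 2 c Φ j := fun j => (h4 j).deriv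
    rw [h5, h5]
    exact h3 Φ M hΦ hM

/-- The boundary parameters without quasi-Lipschitz velocities form a set of length zero. -/
theorem null : μH[1] {c | c ∈ frontier mandelbrotSet ∧ ¬ QuasiLipschitz KQ c} = 0 := by
  refine measure_mono_null ?_ null_QL
  rintro c ⟨h1, h2⟩
  exact ⟨h1, fun h => h2 (ql ((Pool.Agent.H712R2.isCompact_multibrot
    (d := 2) le_rfl).isClosed.frontier_subset h1) h)⟩

/-- **Local connectivity is decided where the velocities are quasi-Lipschitz.** Every point `p` at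
which the Mandelbrot set is not locally connected lies in a continuum `C` (with more than one
point, of positive length near each of its points) of such points, and at almost all points of `C`
for the length the critical orbit has quasi-Lipschitz velocities. -/
theorem result :
    ∃ K : ℝ, 0 < K ∧
      (LocallyConnectedSpace mandelbrotSet ↔
        ∀ c ∈ frontier mandelbrotSet, QuasiLipschitz K c → LocallyConnectedAt mandelbrotSet c) ∧
      ∀ p : ℂ, ¬ LocallyConnectedAt mandelbrotSet p →
        ∃ C ⊆ frontier mandelbrotSet, IsCompact C ∧ IsConnected C ∧ p ∈ C ∧ C.Nontrivial ∧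
          (∀ z ∈ C, ¬ LocallyConnectedAt mandelbrotSet z) ∧
          (∀ z ∈ C, ∀ ε : ℝ, 0 < ε → 0 < μH[1] (C ∩ ball z ε)) ∧
          μH[1] {c ∈ C | ¬ QuasiLipschitz K c} = 0 := by
  have h1 := decided (Pool.Agent.H712R2.isCompact_multibrot (d := 2) le_rfl)
    (Pool.Agent.H712R2.isConnected_multibrot (d := 2) le_rfl).isPreconnected null
  refine ⟨KQ, KQ_pos, ?_, ?_⟩
  · refine h1.1.trans ⟨fun h c hc hQ => h c hc fun h2 => h2.2 hQ, fun h c hc hc2 => h c hc ?_⟩
    by_contra hQ
    exact hc2 ⟨hc, hQ⟩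
  · intro p hp
    obtain ⟨C, hC, h2, h3, h4, h5, h6, h7, h8⟩ := h1.2 p hp
    refine ⟨C, hC, h2, h3, h4, h5, h6, h7, measure_mono_null ?_ h8⟩
    rintro c ⟨h9, h10⟩
    exact ⟨h9, hC h9, h10⟩

end Pool.Agent.Results.MP_c6f924_an.QuasiLipschitzVelocities
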