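import Mathlib
import Pool.Prelude.Def_F_c31e40fa
import Pool.Agent.H712R2.MultibrotConnected
import Pool.Agent.K6.H26.ML.Dec
import Pool.Agent.K6.H26.ML.BC
import Pool.Agent.K6.H26.ML.Count

set_option autoImplicit false

open Filter Topology Set Metric MeasureTheory Complex N62a1eb23

namespace Pool.Agent.Results.MP_c6f924_an.RemoteParameters

/-- The map `z ↦ z ^ 2 + a`. -/
def f (a : ℂ) : ℂ → ℂ := fun z => z ^ 2 + a

/-- The postcritically finite parameters of level `n`: the critical orbit `f_a^j (0)` satisfies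
`f_a^n (0) = f_a^k (0)` for some `k < n`. (For `k = 0` the point `0` is periodic, otherwise it is
preperiodic; these are the centres of the hyperbolic components and the Misiurewicz parameters.) -/
def Pcf (n : ℕ) : Set ℂ := {a | ∃ k < n, (f a)^[n] 0 = (f a)^[k] 0}

/-- The parabolic parameters: there is a cycle of period dividing `m` whose multiplier
`(f_a^m)' (z)` is a `q`-th root of unity. (The roots of the hyperbolic components are among them.) -/
def Parabolic (m q : ℕ) : Set ℂ := {a | ∃ z, (f a)^[m] z = z ∧ deriv ((f a)^[m]) z ^ q = 1}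

/-- Remote parameters: only for finitely many `n` there is a postcritically finite parameter of
level `n` at distance at most `s n` from `c`, and only for finitely many pairs `(m, q)` with
`m, q ≥ 1` there is a parabolic parameter of type `(m, q)` at distance at most `r m q`. -/
def Remote (s : ℕ → ℝ) (r : ℕ → ℕ → ℝ) (c : ℂ) : Prop :=
  {n : ℕ | ∃ a ∈ Pcf n, dist a c ≤ s n}.Finite ∧
    {x : ℕ × ℕ | 1 ≤ x.1 ∧ 1 ≤ x.2 ∧ ∃ a ∈ Parabolic x.1 x.2, dist a c ≤ r x.1 x.2}.Finite

/-- `K` is locally connected at `c` in the weak sense (connected im kleinen): the points of `K`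
close to `c` are joined to `c` by small connected subsets of `K`. -/
def LocallyConnectedAt (K : Set ℂ) (c : ℂ) : Prop :=
  ∀ ε : ℝ, 0 < ε → ∃ δ : ℝ, 0 < δ ∧ ∀ q ∈ K, dist q c < δ →
    ∃ C ⊆ K ∩ ball c ε, IsPreconnected C ∧ c ∈ C ∧ q ∈ C

open Pool.Agent.K6.H26.ML

theorem pcf_eq (n : ℕ) : Pcf n = ⋃ k ∈ Finset.range n, {a : ℂ | (qm a)^[n] 0 = (qm a)^[k] 0} := by
  ext a
  simp only [Pcf, mem_ofPred_eq, mem_iUnion, Finset.mem_range, exists_prop]
  rfl

theorem pcf_fin (n : ℕ) : (Pcf n).Finite ∧ ((Pcf n).ncard : ℝ) ≤ n * 2 ^ n := by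
  classical
  have h1 : (Pcf n).Finite := by
    rw [pcf_eq]
    exact Set.Finite.biUnion (Finset.finite_toSet _) fun k hk =>
      (pcf_count (Finset.mem_range.1 hk)).1
  refine ⟨h1, ?_⟩
  have h2 : (Pcf n).ncard ≤ ∑ k ∈ Finset.range n,
      {a : ℂ | (qm a)^[n] 0 = (qm a)^[k] 0}.ncard := by
    rw [pcf_eq]
    exact Finset.set_ncard_biUnion_le _ _
  have h3 : ∑ k ∈ Finset.range n, {a : ℂ | (qm a)^[n] 0 = (qm a)^[k] 0}.ncard ≤
      ∑ _k ∈ Finset.range n, 2 ^ n :=
    Finset.sum_le_sum fun k hk => (pcf_count (Finset.mem_range.1 hk)).2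
  rw [Finset.sum_const, Finset.card_range, smul_eq_mul] at h3
  exact_mod_cast h2.trans h3

/-- The parameters that are not remote form a set of length zero. -/
theorem null (s : ℕ → ℝ) (r : ℕ → ℕ → ℝ) (hs0 : ∀ n, 0 ≤ s n) (hr0 : ∀ m q, 0 ≤ r m q)
    (hs : Summable fun n : ℕ => (n * 2 ^ n : ℝ) * s n)
    (hr : Summable fun x : ℕ × ℕ => (x.1 * x.2 * 2 ^ x.1 : ℝ) * r x.1 x.2) :
    μH[1] {c | ¬ Remote s r c} = 0 := by
  classical
  have h1 := null_limsup Pcf (fun n => (pcf_fin n).1) s hs0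
    (Summable.of_nonneg_of_le (fun n => mul_nonneg (Nat.cast_nonneg _) (hs0 n))
      (fun n => mul_le_mul_of_nonneg_right (pcf_fin n).2 (hs0 n)) hs)
  obtain ⟨A, hA⟩ : ∃ A : ℕ × ℕ → Set ℂ, A = fun x =>
      if 1 ≤ x.1 ∧ 1 ≤ x.2 then Parabolic x.1 x.2 else ∅ := ⟨_, rfl⟩
  have hAf : ∀ x, (A x).Finite ∧ ((A x).ncard : ℝ) ≤ x.1 * x.2 * 2 ^ x.1 := by
    intro x
    rw [hA]
    by_cases hx : 1 ≤ x.1 ∧ 1 ≤ x.2
    · simp only [if_pos hx]
      obtain ⟨h2, h3⟩ := par_count hx.1 hx.2
      refine ⟨h2, ?_⟩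
      have h4 : (Parabolic x.1 x.2).ncard ≤ x.1 * x.2 * 2 ^ (x.1 - 1) := h3
      have h5 : x.1 * x.2 * 2 ^ (x.1 - 1) ≤ x.1 * x.2 * 2 ^ x.1 := by
        gcongr
        · norm_num
        · omega
      exact_mod_cast h4.trans h5
    · simp only [if_neg hx]
      refine ⟨finite_empty, ?_⟩
      rw [ncard_empty, Nat.cast_zero]
      positivity
  have h2 := null_limsup A (fun x => (hAf x).1) (fun x => r x.1 x.2) (fun x => hr0 _ _)
    (Summable.of_nonneg_of_le (fun x => mul_nonneg (Nat.cast_nonneg _) (hr0 _ _))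
      (fun x => mul_le_mul_of_nonneg_right (hAf x).2 (hr0 _ _)) hr)
  refine measure_mono_null ?_ (measure_union_null h1 h2)
  intro c hc
  rw [mem_ofPred_eq, Remote, not_and_or] at hc
  rcases hc with hc | hc
  · left
    rw [mem_ofPred_eq, frequently_cofinite_iff_infinite]
    exact hc
  · right
    rw [mem_ofPred_eq, frequently_cofinite_iff_infinite]
    refine Set.Infinite.mono ?_ hc
    rintro x ⟨hx1, hx2, a, ha, hac⟩
    refine ⟨a, ?_, hac⟩
    rw [hA]
    simp only [if_pos (And.intro hx1 hx2)]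
    exact ha

/-- **Local connectivity is decided at the parameters which are badly approximable by all
postcritically finite and all parabolic parameters.** Every point `p` at which the Mandelbrot set
is not locally connected lies in a continuum `C` (with more than one point, of positive length
near each of its points) of such points, and almost all points of `C` for the length are remote. -/
theorem result (s : ℕ → ℝ) (r : ℕ → ℕ → ℝ) (hs0 : ∀ n, 0 ≤ s n) (hr0 : ∀ m q, 0 ≤ r m q)
    (hs : Summable fun n : ℕ => (n * 2 ^ n : ℝ) * s n)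
    (hr : Summable fun x : ℕ × ℕ => (x.1 * x.2 * 2 ^ x.1 : ℝ) * r x.1 x.2) :
    (LocallyConnectedSpace mandelbrotSet ↔
      ∀ c ∈ frontier mandelbrotSet, Remote s r c → LocallyConnectedAt mandelbrotSet c) ∧
    ∀ p : ℂ, ¬ LocallyConnectedAt mandelbrotSet p →
      ∃ C ⊆ frontier mandelbrotSet, IsCompact C ∧ IsConnected C ∧ p ∈ C ∧ C.Nontrivial ∧
        (∀ z ∈ C, ¬ LocallyConnectedAt mandelbrotSet z) ∧
        (∀ z ∈ C, ∀ ε : ℝ, 0 < ε → 0 < μH[1] (C ∩ ball z ε)) ∧
        μH[1] {c ∈ C | ¬ Remote s r c} = 0 := by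
  have h1 := decided (Pool.Agent.H712R2.isCompact_multibrot (d := 2) le_rfl)
    (Pool.Agent.H712R2.isConnected_multibrot (d := 2) le_rfl).isPreconnected
    (null s r hs0 hr0 hs hr)
  refine ⟨?_, h1.2⟩
  rw [h1.1]
  constructor
  · intro h c hc hc2
    exact h c hc (not_not_intro hc2)
  · intro h c hc hc2
    exact h c hc (not_not.1 hc2)

end Pool.Agent.Results.MP_c6f924_an.RemoteParameters
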