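import Mathlib
import Pool.Prelude.Def_F_c31e40fa
import Pool.Agent.H712R2.MultibrotConnected
import Pool.Agent.K6.H26.ML.Dec
import Pool.Agent.K6.H26.ML.Ql

/-!
# Infinitely renormalizable parameters: the exceptions have dimension zero

By Yoccoz' theorem the Mandelbrot set is locally connected at the parameters which are not
infinitely renormalizable. Here it is shown that the infinitely renormalizable boundary parameters
without subexponential bounds for ALL pairs of points of the critical orbit in a little Julia set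
form a set of Hausdorff dimension zero, so that local connectivity is decided at the others.
-/

set_option autoImplicit false

open Filter Topology Set Metric MeasureTheory Complex N62a1eb23

namespace Pool.Agent.Results.MP_c6f924_an.ZeroDimensionalExceptions

/-- The map `z ↦ z ^ 2 + c`. -/
def f (c : ℂ) : ℂ → ℂ := fun z => z ^ 2 + c

/-- The point `x_n = f_c^n (0)` of the critical orbit. -/
def P (n : ℕ) (c : ℂ) : ℂ := (f c)^[n] 0

/-- The perturbation `(id + t Φ) ∘ f_c` of `f_c`. For `Φ = 1` it is `f_(c + t)`. -/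
def g (c : ℂ) (Φ : ℂ → ℂ) (t : ℂ) : ℂ → ℂ := fun z => f c z + t * Φ (f c z)

/-- The velocity of the `n`-th point of the critical orbit under this perturbation. -/
noncomputable def velocity (c : ℂ) (Φ : ℂ → ℂ) (n : ℕ) : ℂ := deriv (fun t : ℂ => (g c Φ t)^[n] 0) 0

/-- `h` is proper of degree at most `2` from the bounded open set `U` onto a set which contains the
closure of `U`. Polynomial-like maps of degree `2` have this property. -/
def PolynomialLike (h : ℂ → ℂ) (U : Set ℂ) : Prop :=
  IsOpen U ∧ Bornology.IsBounded U ∧ closure U ⊆ h '' U ∧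
    (∀ K ⊆ h '' U, IsCompact K → IsCompact {z | z ∈ U ∧ h z ∈ K}) ∧
    ∀ w ∈ h '' U, {z | z ∈ U ∧ h z = w}.encard ≤ 2

/-- `z ↦ z ^ 2 + c` is renormalizable of period `q`. -/
def Renormalizable (c : ℂ) (q : ℕ) : Prop :=
  ∃ U : Set ℂ, PolynomialLike ((f c)^[q]) U ∧ (0 : ℂ) ∈ U ∧
    (∀ n : ℕ, 1 ≤ n → (f c)^[n * q] 0 ∈ U) ∧ ∀ z ∈ U, deriv ((f c)^[q]) z = 0 → z = 0

/-- infinitely renormalizable parameters -/
def InfinitelyRenormalizable (c : ℂ) : Prop := {q : ℕ | Renormalizable c q}.Infinite

/-- The bounds for the period `q` and the exponent `X`: for all large `n` and ALL `k < n` such that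
`k = 0` or `q` divides `n - k` (so that `x_n` and `x_k` belong to the same little Julia set):
(1) every parameter `a` with `f_a^n (0) = f_a^k (0)` is at distance more than `exp (- X n)`;
(2) under every holomorphic perturbation the velocities of `x_n` and `x_k` differ by at most
`exp (X n)` times the size of the perturbation times `|x_n - x_k| (1 + |log |x_n - x_k||)`, up to a
constant. -/
def Bounds (K : ℝ) (q : ℕ) (X : ℝ) (c : ℂ) : Prop :=
  ∀ᶠ n : ℕ in atTop, ∀ k < n, (k = 0 ∨ q ∣ n - k) →
    (∀ a : ℂ, P n a = P k a → Real.exp (-(X * n)) < dist a c) ∧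
    ∀ (Φ : ℂ → ℂ) (M : ℝ), DifferentiableOn ℂ Φ (ball 0 4) →
      (∀ x ∈ ball (0 : ℂ) 4, ‖Φ x‖ ≤ M) →
      (∀ j : ℕ, DifferentiableAt ℂ (fun t : ℂ => (g c Φ t)^[j] 0) 0) ∧
      ‖velocity c Φ n - velocity c Φ k‖ ≤
        K * M * Real.exp (X * n) * (‖P n c - P k c‖ * (1 + |Real.log ‖P n c - P k c‖|))

/-- Subexponential bounds: for every `X > 0` the bounds hold for all periods of renormalization
with finitely many exceptions. -/
def Subexponential (K : ℝ) (c : ℂ) : Prop :=
  ∀ X : ℝ, 0 < X → {q : ℕ | Renormalizable c q ∧ ¬ Bounds K q X c}.Finite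

/-- `K` is locally connected at `c` in the weak sense (connected im kleinen): the points of `K`
close to `c` are joined to `c` by small connected subsets of `K`. -/
def LocallyConnectedAt (K : Set ℂ) (c : ℂ) : Prop :=
  ∀ ε : ℝ, 0 < ε → ∃ δ : ℝ, 0 < δ ∧ ∀ q ∈ K, dist q c < δ →
    ∃ C ⊆ K ∩ ball c ε, IsPreconnected C ∧ c ∈ C ∧ q ∈ C

open Pool.Agent.K6.H26.ML

theorem bounds {c : ℂ} (hc : c ∈ multibrotSet 2) {q : ℕ} {X : ℝ} (h : FarP q X c) :
    Bounds KQ q X c := by
  unfold Bounds
  filter_upwards [h] with n hn k hkn hk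
  obtain ⟨h2, h3⟩ := hn k hkn hk
  refine ⟨fun a ha => ?_, fun Φ M hΦ hM => ?_⟩
  · rw [dist_eq_norm]
    exact h2 a ha
  · have h4 : ∀ j, HasDerivAt (fun t : ℂ => (g c Φ t)^[j] 0) (Pool.Agent.R240.Univ.vel 2 c Φ j) 0 :=
      fun j => Pool.Agent.R240.Univ.vel_deriv (le_refl 2) hc hΦ j
    refine ⟨fun j => (h4 j).differentiableAt, ?_⟩
    have h5 : ∀ j, velocity c Φ j = Pool.Agent.R240.Univ.vel 2 c Φ j := fun j => (h4 j).deriv
    rw [h5, h5]
    exact h3 Φ M hΦ hM

/-- **The exceptions have dimension zero.** -/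
theorem dim_zero : dimH {c | c ∈ frontier mandelbrotSet ∧ InfinitelyRenormalizable c ∧
    ¬ Subexponential KQ c} = 0 := by
  refine le_antisymm ((dimH_mono ?_).trans dim_inf.le) bot_le
  rintro c ⟨h1, h2, h3⟩
  have hcM : c ∈ multibrotSet 2 :=
    (Pool.Agent.H712R2.isCompact_multibrot (d := 2) le_rfl).isClosed.frontier_subset h1
  refine ⟨h1, h2, ?_⟩
  unfold Subexponential at h3
  push Not at h3
  obtain ⟨X, hX, h4⟩ := h3
  refine ⟨X, hX, Set.Infinite.mono ?_ h4⟩
  rintro q ⟨h5, h6⟩
  refine ⟨h5, ?_⟩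
  by_contra hcon
  rw [not_or] at hcon
  exact h6 (bounds hcM (farP_of_not_near h1 hX hcon.1 hcon.2))

/-- **Infinitely renormalizable parameters and local connectivity.** The infinitely renormalizable
boundary parameters without subexponential bounds form a set of dimension zero; local connectivity
of the Mandelbrot set is decided outside this set, and every point `p` at which the Mandelbrot set
is not locally connected lies in a continuum `C` (with more than one point, of positive length near
each of its points) of such points, in which the exceptions have dimension zero. -/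
theorem result :
    ∃ K : ℝ, 0 < K ∧
      dimH {c | c ∈ frontier mandelbrotSet ∧ InfinitelyRenormalizable c ∧
        ¬ Subexponential K c} = 0 ∧
      (LocallyConnectedSpace mandelbrotSet ↔
        ∀ c ∈ frontier mandelbrotSet, (InfinitelyRenormalizable c → Subexponential K c) →
          LocallyConnectedAt mandelbrotSet c) ∧
      ∀ p : ℂ, ¬ LocallyConnectedAt mandelbrotSet p →
        ∃ C ⊆ frontier mandelbrotSet, IsCompact C ∧ IsConnected C ∧ p ∈ C ∧ C.Nontrivial ∧
          (∀ z ∈ C, ¬ LocallyConnectedAt mandelbrotSet z) ∧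
          (∀ z ∈ C, ∀ ε : ℝ, 0 < ε → 0 < μH[1] (C ∩ ball z ε)) ∧
          dimH {c ∈ C | InfinitelyRenormalizable c ∧ ¬ Subexponential K c} = 0 := by
  have hz : μH[1] {c | c ∈ frontier mandelbrotSet ∧ InfinitelyRenormalizable c ∧
      ¬ Subexponential KQ c} = 0 := by
    have h4 := hausdorffMeasure_of_dimH_lt (d := 1) (s := {c | c ∈ frontier mandelbrotSet ∧
      InfinitelyRenormalizable c ∧ ¬ Subexponential KQ c}) (by rw [dim_zero]; simp)
    simpa using h4
  have h1 := decided (Pool.Agent.H712R2.isCompact_multibrot (d := 2) le_rfl)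
    (Pool.Agent.H712R2.isConnected_multibrot (d := 2) le_rfl).isPreconnected hz
  refine ⟨KQ, KQ_pos, dim_zero, ?_, ?_⟩
  · refine h1.1.trans ⟨fun h c hc hQ => h c hc fun h2 => h2.2.2 (hQ h2.2.1),
      fun h c hc hc2 => h c hc fun h3 => ?_⟩
    by_contra hQ
    exact hc2 ⟨hc, h3, hQ⟩
  · intro p hp
    obtain ⟨C, hC, h2, h3, h4, h5, h6, h7, h8⟩ := h1.2 p hp
    refine ⟨C, hC, h2, h3, h4, h5, h6, h7, ?_⟩
    refine le_antisymm ((dimH_mono ?_).trans dim_zero.le) bot_le
    rintro c ⟨h9, h10⟩
    exact ⟨hC h9, h10⟩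

end Pool.Agent.Results.MP_c6f924_an.ZeroDimensionalExceptions
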